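import Pool.Agent.H312.RkE

/-!
# Parity of the rank statistics on partitions into two part sizes

Write `N = 2 M` with `M` odd and sort the quadruples `(λ₁, m₁, λ₂, m₂)` by the parities of their
entries. The conjugation permutes the nine possible patterns, and the swaps of the full set of
solutions of `a b + c d = N` (without `a > c`) give linear relations between them; in the end the
number of partitions with odd `rk₂` is `2 (n₁₁₁₁ + V)` and with odd `rk` it is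
`2 V + (ν₂ - ...)`, where `V` is the number of solutions of the pattern `0010` and `n₁₁₁₁` the number
of partitions with all four entries odd. The parity of `V` is that of the number of solutions of
`M = x² + 2 y²`, by fixed points; the parity of `n₁₁₁₁` is found with `σ(M)` and, for `ν₂`, with an
involution of the type used by Heath-Brown and Zagier.
-/

namespace Pool.Agent.Results.MP_cd2397_nt.RankParity

open Finset

/-- The partitions of `N` into exactly two part sizes: the quadruples `(λ₁, m₁, λ₂, m₂)` with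
`λ₁ > λ₂ ≥ 1`, `m₁, m₂ ≥ 1` and `λ₁ m₁ + λ₂ m₂ = N` (all entries are at most `N`). -/
def P2 (N : ℕ) : Finset (ℕ × ℕ × ℕ × ℕ) :=
  ((range (N + 1)) ×ˢ (range (N + 1)) ×ˢ (range (N + 1)) ×ˢ (range (N + 1))).filter
    (fun x => x.2.2.1 < x.1 ∧ 1 ≤ x.2.2.1 ∧ 1 ≤ x.2.1 ∧ 1 ≤ x.2.2.2 ∧
      x.1 * x.2.1 + x.2.2.1 * x.2.2.2 = N)

/-- Dyson's rank `λ₁ - m₁ - m₂` -/
def rk (x : ℕ × ℕ × ℕ × ℕ) : ℤ := x.1 - x.2.1 - x.2.2.2

/-- the statistic `rk₂ = λ₁ + λ₂ - 2 m₁ - m₂` -/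
def rk2 (x : ℕ × ℕ × ℕ × ℕ) : ℤ := x.1 + x.2.2.1 - 2 * x.2.1 - x.2.2.2

/-- the number of the partitions of `N` into two part sizes with `s ≡ ε mod 2` -/
def count (s : ℕ × ℕ × ℕ × ℕ → ℤ) (ε : ℤ) (N : ℕ) : ℕ :=
  ((P2 N).filter (fun x => s x ≡ ε [ZMOD 2])).card

/-- the set `S` of the five progressions `A n + B` -/
def S : Finset (ℕ × ℕ) := {(16, 14), (36, 30), (72, 42), (196, 70), (252, 114)}

/-- `P2 N` contains what it should -/
theorem mem_P2 {N a b c d : ℕ} :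
    (a, b, c, d) ∈ P2 N ↔ c < a ∧ 1 ≤ c ∧ 1 ≤ b ∧ 1 ≤ d ∧ a * b + c * d = N := by
  rw [P2, mem_filter, mem_product, mem_product, mem_product, mem_range, mem_range, mem_range,
    mem_range]
  simp only
  constructor
  · rintro ⟨_, h⟩
    exact h
  · rintro ⟨ha, hb, hc, hd, h⟩
    refine ⟨⟨?_, ?_, ?_, ?_⟩, ha, hb, hc, hd, h⟩ <;> nlinarith

open Pool.Agent.H312.Rk in
theorem cnt_dec (N : ℕ) (p : ℕ → ℕ → ℕ → ℕ → Prop)
    [DecidablePred fun x : R4 => p x.1 x.2.1 x.2.2.1 x.2.2.2] :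
    cnt N p = ((Q N).filter (fun x => p x.1 x.2.1 x.2.2.1 x.2.2.2)).card := by
  rw [cnt]
  congr!

open Pool.Agent.H312.Rk in
theorem card_P2 (N : ℕ) : (P2 N).card = cnt N (fun a _ c _ => c < a) := by
  rw [cnt_dec]
  congr 1
  ext ⟨a, b, c, d⟩
  rw [mem_filter, mem_Q, mem_P2]
  constructor
  · rintro ⟨h1, h2, h3, h4, h5⟩; exact ⟨⟨by omega, by omega, by omega, by omega, h5⟩, h1⟩
  · rintro ⟨⟨h1, h2, h3, h4, h5⟩, h6⟩; exact ⟨h6, by omega, by omega, by omega, h5⟩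

open Pool.Agent.H312.Rk in
theorem count_rk2 (N : ℕ) : count rk2 1 N = cnt N (fun a _ c d => c < a ∧ (a + c + d) % 2 = 1) := by
  rw [cnt_dec, count]
  congr 1
  ext ⟨a, b, c, d⟩
  rw [mem_filter, mem_filter, mem_Q, mem_P2]
  simp only [rk2, Int.ModEq]
  constructor
  · rintro ⟨⟨h1, h2, h3, h4, h5⟩, h⟩
    exact ⟨⟨by omega, by omega, by omega, by omega, h5⟩, h1, by omega⟩
  · rintro ⟨⟨h1, h2, h3, h4, h5⟩, h6, h⟩
    exact ⟨⟨h6, by omega, by omega, by omega, h5⟩, by omega⟩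

open Pool.Agent.H312.Rk in
theorem count_rk (N : ℕ) : count rk 1 N = cnt N (fun a b c d => c < a ∧ (a + b + d) % 2 = 1) := by
  rw [cnt_dec, count]
  congr 1
  ext ⟨a, b, c, d⟩
  rw [mem_filter, mem_filter, mem_Q, mem_P2]
  simp only [rk, Int.ModEq]
  constructor
  · rintro ⟨⟨h1, h2, h3, h4, h5⟩, h⟩
    exact ⟨⟨by omega, by omega, by omega, by omega, h5⟩, h1, by omega⟩
  · rintro ⟨⟨h1, h2, h3, h4, h5⟩, h6, h⟩
    exact ⟨⟨h6, by omega, by omega, by omega, h5⟩, by omega⟩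

theorem count_add (s : ℕ × ℕ × ℕ × ℕ → ℤ) (N : ℕ) : count s 0 N + count s 1 N = (P2 N).card := by
  rw [count, count, ← card_filter_add_card_filter_not (s := P2 N) (fun x => s x ≡ 0 [ZMOD 2])]
  congr 2
  ext x
  rw [mem_filter, mem_filter]
  simp only [Int.ModEq]
  constructor
  · rintro ⟨h1, h2⟩; exact ⟨h1, by omega⟩
  · rintro ⟨h1, h2⟩; exact ⟨h1, by omega⟩

open Pool.Agent.H312.Rk in
/-- the general statement for `N = 2 M` -/
theorem of_M {N M : ℕ} (hN : N = 2 * M) (hM : M % 2 = 1) (hsq : ∀ x : ℕ, x * x ≠ M)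
    (hR : ∀ x y : ℕ, x * x + y * y ≠ 2 * M) (hW : Even (W M).card) (hs : 8 ∣ sig M) :
    (4 ∣ count rk2 0 N ∧ 4 ∣ count rk2 1 N) ∧
      (4 ∣ M.divisors.card → 4 ∣ count rk 0 N ∧ 4 ∣ count rk 1 N) := by
  obtain ⟨h1, h2, h3⟩ := main_M hN hM hsq hR hW hs
  rw [← card_P2] at h1
  rw [← count_rk2] at h2
  rw [← count_rk] at h3
  have h4 := count_add rk2 N
  have h5 := count_add rk N
  refine ⟨⟨?_, h2⟩, fun h => ⟨?_, h3 h⟩⟩
  · exact (Nat.dvd_add_left h2).1 (h4 ▸ h1)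
  · exact (Nat.dvd_add_left (h3 h)).1 (h5 ▸ h1)

open Pool.Agent.H312.Rk in
/-- **Q1, both parts are true.**

(a) For every `(A, B) ∈ S` and `n ≥ 0` the numbers of partitions of `A n + B` into two part sizes
with even `rk₂` and with odd `rk₂` are both divisible by `4`.

(b) For every `(A, B) ∈ S ∖ {(16, 14)}` and `n ≥ 0` the numbers of partitions of `A n + B` into two
part sizes with even `rk` and with odd `rk` are both divisible by `4`. -/
theorem result :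
    (∀ AB ∈ S, ∀ n : ℕ, 4 ∣ count rk2 0 (AB.1 * n + AB.2) ∧ 4 ∣ count rk2 1 (AB.1 * n + AB.2)) ∧
    (∀ AB ∈ S \ {(16, 14)}, ∀ n : ℕ,
      4 ∣ count rk 0 (AB.1 * n + AB.2) ∧ 4 ∣ count rk 1 (AB.1 * n + AB.2)) := by
  have A : ∀ n : ℕ, 4 ∣ count rk2 0 (16 * n + 14) ∧ 4 ∣ count rk2 1 (16 * n + 14) := by
    intro n
    obtain ⟨h1, h2, h3, h4⟩ := classA (M := 8 * n + 7) (by omega)
    exact (of_M (by ring) (by omega) h1 h2 h3 h4).1
  have B : ∀ {N m : ℕ}, N = 2 * (3 * m) → m % 2 = 1 → m % 3 ≠ 0 → (∀ x : ℕ, x * x ≠ m) →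
      (4 ∣ count rk2 0 N ∧ 4 ∣ count rk2 1 N) ∧ (4 ∣ count rk 0 N ∧ 4 ∣ count rk 1 N) := by
    intro N m hN h2 h3 hsq
    obtain ⟨e1, e2, e3, e4, e5⟩ := classB h2 h3 hsq
    have := of_M hN (by omega) e1 e2 e3 e4
    exact ⟨this.1, this.2 e5⟩
  have C : ∀ {N m : ℕ}, N = 2 * (7 * m) → m % 2 = 1 → m % 7 ≠ 0 → (∀ x : ℕ, x * x ≠ m) →
      (4 ∣ count rk2 0 N ∧ 4 ∣ count rk2 1 N) ∧ (4 ∣ count rk 0 N ∧ 4 ∣ count rk 1 N) := by
    intro N m hN h2 h3 hsq
    obtain ⟨e1, e2, e3, e4, e5⟩ := classC h2 h3 hsq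
    have := of_M hN (by omega) e1 e2 e3 e4
    exact ⟨this.1, this.2 e5⟩
  have D1 : ∀ n : ℕ, (4 ∣ count rk2 0 (36 * n + 30) ∧ 4 ∣ count rk2 1 (36 * n + 30)) ∧
      (4 ∣ count rk 0 (36 * n + 30) ∧ 4 ∣ count rk 1 (36 * n + 30)) := fun n =>
    B (m := 6 * n + 5) (by ring) (by omega) (by omega) (nonsq_mod3 (by omega))
  have D2 : ∀ n : ℕ, (4 ∣ count rk2 0 (72 * n + 42) ∧ 4 ∣ count rk2 1 (72 * n + 42)) ∧
      (4 ∣ count rk 0 (72 * n + 42) ∧ 4 ∣ count rk 1 (72 * n + 42)) := fun n =>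
    B (m := 12 * n + 7) (by ring) (by omega) (by omega) (nonsq_mod4 (by omega))
  have D3 : ∀ n : ℕ, (4 ∣ count rk2 0 (196 * n + 70) ∧ 4 ∣ count rk2 1 (196 * n + 70)) ∧
      (4 ∣ count rk 0 (196 * n + 70) ∧ 4 ∣ count rk 1 (196 * n + 70)) := fun n =>
    C (m := 14 * n + 5) (by ring) (by omega) (by omega) (nonsq_mod7 (by omega))
  have D4 : ∀ n : ℕ, (4 ∣ count rk2 0 (252 * n + 114) ∧ 4 ∣ count rk2 1 (252 * n + 114)) ∧
      (4 ∣ count rk 0 (252 * n + 114) ∧ 4 ∣ count rk 1 (252 * n + 114)) := fun n =>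
    B (m := 42 * n + 19) (by ring) (by omega) (by omega) (nonsq_mod7 (by omega))
  refine ⟨?_, ?_⟩
  · intro AB h n
    simp only [S, mem_insert, mem_singleton] at h
    rcases h with rfl | rfl | rfl | rfl | rfl
    · exact A n
    · exact (D1 n).1
    · exact (D2 n).1
    · exact (D3 n).1
    · exact (D4 n).1
  · intro AB h n
    rw [mem_sdiff] at h
    obtain ⟨h, h'⟩ := h
    simp only [S, mem_insert, mem_singleton] at h h'
    rcases h with rfl | rfl | rfl | rfl | rfl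
    · exact absurd rfl h'
    · exact (D1 n).2
    · exact (D2 n).2
    · exact (D3 n).2
    · exact (D4 n).2

end Pool.Agent.Results.MP_cd2397_nt.RankParity
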